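import Mathlib

/-!
# A nonabelian variety of groups all of whose members are integrable

Let `p` be an odd prime and let `V` be the variety of the groups of exponent dividing `p` which
are nilpotent of class at most two. By Baer, a group `G` in `V` is a Lie algebra over `ZMod p`
with the addition `x + y = x y [y, x] ^ ((p + 1) / 2)`. Let `P` be a linear projection onto the
derived subgroup `G'`. The map `θ x = 2 P x - x` is an automorphism of `G` which is the identity on
`G'` and the inversion on the complement `ker P`, and `G` is the derived subgroup of the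
semidirect product of `G` with an infinite cyclic group acting by the powers of `θ`.
-/

namespace Pool.Agent.Results.MP_fbf3cb_al.ClassTwoOddPrime

open scoped commutatorElement

universe u

/-- `w = 1` is a law of the group `G` (`w` is a word in countably many letters). -/
def IsLaw (G : Type*) [Group G] (w : FreeGroup ℕ) : Prop :=
  ∀ f : ℕ → G, FreeGroup.lift f w = 1

/-- The variety of all groups satisfying the laws `w = 1`, `w ∈ L`. -/
def InVariety (L : Set (FreeGroup ℕ)) (G : Type*) [Group G] : Prop :=
  ∀ w ∈ L, IsLaw G w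

/-- `G` has an integral: it is isomorphic to the derived subgroup of some group. -/
def HasIntegral (G : Type u) [Group G] : Prop :=
  ∃ (H : Type u) (_ : Group H), Nonempty (commutator H ≃* G)

/-- The laws `x ^ p = 1` and `[[x, y], z] = 1`. -/
def laws (p : ℕ) : Set (FreeGroup ℕ) :=
  {FreeGroup.of 0 ^ p, ⁅⁅FreeGroup.of 0, FreeGroup.of 1⁆, FreeGroup.of 2⁆}

/-! ### Baer's Lie algebra -/

section Baer

variable {G : Type u} [Group G]

/-- `[x, y] ^ m` -/
def bt (m : ℕ) (x y : G) : G := ⁅x, y⁆ ^ m

/-- The assumptions on `G`: commutators are central, the exponent divides `p`, and `2 m = p + 1`. -/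
structure Data (G : Type u) [Group G] (p m : ℕ) : Prop where
  central : ∀ x y z : G, ⁅x, y⁆ * z = z * ⁅x, y⁆
  expo : ∀ x : G, x ^ p = 1
  hm : 2 * m = p + 1

variable {p m : ℕ} (D : Data G p m)
include D

theorem Data.comm_mul_left (x y z : G) : ⁅x * y, z⁆ = ⁅x, z⁆ * ⁅y, z⁆ := by
  have h : ⁅x * y, z⁆ = x * ⁅y, z⁆ * x⁻¹ * ⁅x, z⁆ := by
    simp only [commutatorElement_def]; group
  rw [h, ← D.central y z x, mul_inv_cancel_right, D.central]

theorem Data.comm_mul_right (x y z : G) : ⁅x, y * z⁆ = ⁅x, y⁆ * ⁅x, z⁆ := by
  rw [← commutatorElement_inv, D.comm_mul_left, mul_inv_rev, commutatorElement_inv,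
    commutatorElement_inv, D.central]

theorem Data.bt_central (x y z : G) : bt m x y * z = z * bt m x y := by
  have : Commute ⁅x, y⁆ z := D.central x y z
  exact this.pow_left m

theorem Data.bt_mul_left (x y z : G) : bt m (x * y) z = bt m x z * bt m y z := by
  unfold bt
  rw [D.comm_mul_left]
  exact Commute.mul_pow (D.central x z _) m

theorem Data.bt_mul_right (x y z : G) : bt m x (y * z) = bt m x y * bt m x z := by
  unfold bt
  rw [D.comm_mul_right]
  exact Commute.mul_pow (D.central x y _) m

omit D in
theorem bt_swap (x y : G) : bt m y x = (bt m x y)⁻¹ := by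
  unfold bt
  rw [← commutatorElement_inv x y, inv_pow]

omit D in
theorem bt_self (x : G) : bt m x x = 1 := by
  simp [bt]

omit D in
theorem comm_central_right {c : G} (hc : ∀ z, c * z = z * c) (x : G) : ⁅x, c⁆ = 1 := by
  rw [commutatorElement_eq_one_iff_mul_comm, hc]

omit D in
theorem bt_central_right {c : G} (hc : ∀ z, c * z = z * c) (x : G) : bt m x c = 1 := by
  rw [bt, comm_central_right hc, one_pow]

omit D in
theorem bt_central_left {c : G} (hc : ∀ z, c * z = z * c) (x : G) : bt m c x = 1 := by
  rw [bt_swap, bt_central_right hc, inv_one]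

theorem Data.bt_sq (x y : G) : bt m x y * bt m x y = ⁅x, y⁆ := by
  unfold bt
  rw [← pow_add, ← two_mul, D.hm, pow_succ, D.expo, one_mul]

theorem Data.bt_inv_inv (x y : G) : bt m x⁻¹ y⁻¹ = bt m x y := by
  have h1 : bt m x⁻¹ y = (bt m x y)⁻¹ := by
    rw [eq_inv_iff_mul_eq_one, ← D.bt_mul_left, inv_mul_cancel]
    simp [bt]
  have h2 : bt m x⁻¹ y⁻¹ = (bt m x⁻¹ y)⁻¹ := by
    rw [eq_inv_iff_mul_eq_one, ← D.bt_mul_right, inv_mul_cancel]
    simp [bt]
  rw [h2, h1, inv_inv]

/-- Baer's addition `x + y = x y [y, x] ^ m` makes `G` an abelian group. -/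
@[reducible] def Data.addCommGroup : AddCommGroup G :=
  let _ : Add G := ⟨fun x y => x * y * bt m y x⟩
  let _ : Neg G := ⟨fun x => x⁻¹⟩
  let _ : Zero G := ⟨1⟩
  { AddGroup.ofLeftAxioms
      (by
        intro x y z
        show (x * y * bt m y x) * z * bt m z (x * y * bt m y x)
          = x * (y * z * bt m z y) * bt m (y * z * bt m z y) x
        have c1 : bt m z (bt m y x) = 1 := bt_central_right (D.bt_central y x) z
        have c2 : bt m (bt m z y) x = 1 := bt_central_left (D.bt_central z y) x
        simp only [D.bt_mul_left, D.bt_mul_right, c1, c2, mul_one]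
        have e1 := D.bt_central y x
        have e2 := D.bt_central z x
        have e3 := D.bt_central z y
        calc x * y * bt m y x * z * (bt m z x * bt m z y)
            = x * y * (bt m y x * z) * (bt m z x * bt m z y) := by simp only [mul_assoc]
          _ = x * y * (z * bt m y x) * (bt m z y * bt m z x) := by rw [e1, e2 (bt m z y)]
          _ = x * y * z * (bt m y x * bt m z y) * bt m z x := by simp only [mul_assoc]
          _ = x * y * z * (bt m z y * bt m y x) * bt m z x := by rw [e1]
          _ = x * (y * z * bt m z y) * (bt m y x * bt m z x) := by simp only [mul_assoc])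
      (by
        intro x
        show 1 * x * bt m x 1 = x
        simp [bt])
      (by
        intro x
        show x⁻¹ * x * bt m x x⁻¹ = 1
        simp [bt, commutatorElement_def]) with
    add_comm := by
      intro x y
      show x * y * bt m y x = y * x * bt m x y
      have h : x * y = bt m x y * bt m x y * (y * x) := by
        rw [D.bt_sq, commutatorElement_def]; group
      rw [h, mul_assoc (bt m x y), D.bt_central x y (y * x), D.bt_central x y, bt_swap x y,
        mul_assoc, mul_inv_cancel, mul_one] }

omit D in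
theorem proj_mod {K V : Type*} [Field K] [AddCommGroup V] [Module K V] (S : Submodule K V) :
    ∃ g : V →ₗ[K] V, (∀ x, g x ∈ S) ∧ ∀ x ∈ S, g x = x := by
  obtain ⟨g, hg⟩ := LinearMap.exists_leftInverse_of_injective S.subtype S.ker_subtype
  exact ⟨S.subtype.comp g, fun x => (g x).2,
    fun x hx => congrArg Subtype.val (LinearMap.congr_fun hg ⟨x, hx⟩)⟩

omit D in
theorem exists_proj_add {V : Type*} [AddCommGroup V] [Fact p.Prime] (hV : ∀ x : V, p • x = 0)
    (S : AddSubgroup V) : ∃ g : V →+ V, (∀ x, g x ∈ S) ∧ ∀ x ∈ S, g x = x := by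
  let iM : Module (ZMod p) V := AddCommGroup.zmodModule hV
  obtain ⟨g, h1, h2⟩ := proj_mod (AddSubgroup.toZModSubmodule p S)
  exact ⟨g.toAddMonoidHom, h1, h2⟩

theorem Data.exists_proj [Fact p.Prime] : ∃ P : G → G, (∀ x, P x ∈ commutator G) ∧
    (∀ c ∈ commutator G, P c = c) ∧ ∀ x y, P (x * y * bt m y x) = P x * P y := by
  let iG : AddCommGroup G := D.addCommGroup
  have hadd : ∀ x y : G, x + y = x * y * bt m y x := fun _ _ => rfl
  have hcen : ∀ c ∈ commutator G, ∀ z, c * z = z * c := by
    intro c hc z
    have : commutator G ≤ Subgroup.centralizer {z} := by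
      rw [commutator_def, Subgroup.commutator_le]
      intro x _ y _
      rw [Subgroup.mem_centralizer_singleton_iff]
      exact D.central x y z
    exact Subgroup.mem_centralizer_singleton_iff.1 (this hc)
  have hnsmul : ∀ (n : ℕ) (x : G), n • x = x ^ n := by
    intro n x
    induction n with
    | zero => rw [zero_nsmul, pow_zero]; rfl
    | succ n ih =>
      rw [succ_nsmul, ih, hadd, pow_succ]
      have : bt m x (x ^ n) = 1 := by
        rw [bt, (commutatorElement_eq_one_iff_commute).2 ((Commute.refl x).pow_right n), one_pow]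
      rw [this, mul_one]
  let S : AddSubgroup G :=
    { carrier := {x : G | x ∈ commutator G}
      add_mem' := by
        intro a b ha hb
        show a + b ∈ commutator G
        rw [hadd, bt_central_right (hcen a ha), mul_one]
        exact mul_mem ha hb
      zero_mem' := one_mem (commutator G)
      neg_mem' := by
        intro a ha
        exact inv_mem (show a ∈ commutator G from ha) }
  obtain ⟨g, hg1, hg2⟩ := exists_proj_add (p := p) (fun x : G => by
    rw [hnsmul, D.expo]; rfl) S
  refine ⟨g, hg1, hg2, fun x y => ?_⟩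
  have h1 : g (x + y) = g x + g y := map_add g x y
  rw [hadd x y, hadd (g x), bt_central_right (hcen _ (hg1 x)), mul_one] at h1
  exact h1

/-- The automorphism of `G` which is the identity on the derived subgroup and the inversion on a
complement, with respect to Baer's addition. -/
theorem Data.exists_aut [Fact p.Prime] : ∃ θ : MulAut G, ∀ H : Subgroup G,
    (∀ g, g * (θ g)⁻¹ ∈ H) → commutator G ≤ H → H = ⊤ := by
  obtain ⟨P, hP1, hP2, hP3⟩ := D.exists_proj
  have hcen : ∀ c ∈ commutator G, ∀ z, c * z = z * c := by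
    intro c hc z
    have : commutator G ≤ Subgroup.centralizer {z} := by
      rw [commutator_def, Subgroup.commutator_le]
      intro x _ y _
      rw [Subgroup.mem_centralizer_singleton_iff]
      exact D.central x y z
    exact Subgroup.mem_centralizer_singleton_iff.1 (this hc)
  have hPc : ∀ x z, P x * z = z * P x := fun x => hcen _ (hP1 x)
  have hbt : ∀ x y, bt m x y ∈ commutator G := fun x y =>
    pow_mem (show ⁅x, y⁆ ∈ commutator G from
      Subgroup.commutator_mem_commutator (Subgroup.mem_top x) (Subgroup.mem_top y)) m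
  -- `P` and multiplication by central elements of the derived subgroup
  have hPmul : ∀ x, ∀ c ∈ commutator G, P (x * c) = P x * c := by
    intro x c hc
    have h := hP3 x c
    rwa [bt_central_left (hcen c hc), mul_one, hP2 c hc] at h
  have hPxy : ∀ x y, P (x * y) = P x * P y * bt m x y := by
    intro x y
    rw [← hP3, ← hPmul _ _ (hbt x y), mul_assoc (x * y), bt_swap x y, inv_mul_cancel, mul_one]
  have hPinv : ∀ x, P x⁻¹ = (P x)⁻¹ := by
    intro x
    rw [eq_inv_iff_mul_eq_one]
    have h := hP3 x⁻¹ x
    have h1 : bt m x x⁻¹ = 1 := by simp [bt, commutatorElement_def]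
    rw [h1, mul_one, inv_mul_cancel, hP2 1 (one_mem _)] at h
    exact h.symm
  let θ : G → G := fun x => x⁻¹ * (P x * P x)
  have hθθ : Function.Involutive θ := by
    intro x
    have h1 : P (θ x) = P x := by
      show P (x⁻¹ * (P x * P x)) = P x
      rw [hPmul _ _ (mul_mem (hP1 x) (hP1 x)), hPinv, inv_mul_cancel_left]
    show (θ x)⁻¹ * (P (θ x) * P (θ x)) = x
    rw [h1]
    show (x⁻¹ * (P x * P x))⁻¹ * (P x * P x) = x
    rw [mul_inv_rev, inv_inv, mul_assoc, ← mul_assoc x, ← hPc x x, mul_assoc (P x) x, ← hPc x x]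
    group
  have hθmul : ∀ x y, θ (x * y) = θ x * θ y := by
    intro x y
    show (x * y)⁻¹ * (P (x * y) * P (x * y)) = x⁻¹ * (P x * P x) * (y⁻¹ * (P y * P y))
    have e1 : P (x * y) * P (x * y) = ⁅x, y⁆ * ((P x * P x) * (P y * P y)) := by
      rw [hPxy, ← D.bt_sq]
      have a1 := hcen _ (hbt x y)
      have a2 := hPc y
      have a3 : P x * P y * (P x * P y) = (P x * P x) * (P y * P y) := by
        calc P x * P y * (P x * P y) = P x * (P y * P x) * P y := by simp only [mul_assoc]
          _ = P x * (P x * P y) * P y := by rw [a2 (P x)]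
          _ = (P x * P x) * (P y * P y) := by simp only [mul_assoc]
      calc P x * P y * bt m x y * (P x * P y * bt m x y)
          = bt m x y * (P x * P y) * (bt m x y * (P x * P y)) := by rw [a1]
        _ = bt m x y * ((P x * P y) * bt m x y) * (P x * P y) := by simp only [mul_assoc]
        _ = bt m x y * (bt m x y * (P x * P y)) * (P x * P y) := by rw [← a1 (P x * P y)]
        _ = bt m x y * bt m x y * ((P x * P y) * (P x * P y)) := by simp only [mul_assoc]
        _ = bt m x y * bt m x y * ((P x * P x) * (P y * P y)) := by rw [a3]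
    have e2 : (x * y)⁻¹ * ⁅x, y⁆ = x⁻¹ * y⁻¹ := by
      have : ⁅x, y⁆ = ⁅x⁻¹, y⁻¹⁆ := by
        rw [← D.bt_sq x y, ← D.bt_sq x⁻¹ y⁻¹, D.bt_inv_inv]
      rw [this, ← D.central, commutatorElement_def]
      group
    rw [e1, ← mul_assoc, e2, mul_assoc x⁻¹ (P x * P x), ← mul_assoc (P x * P x) y⁻¹,
      hcen _ (mul_mem (hP1 x) (hP1 x)) y⁻¹]
    simp only [mul_assoc]
  refine ⟨⟨⟨θ, θ, hθθ, hθθ⟩, hθmul⟩, fun H h1 h2 => ?_⟩
  rw [eq_top_iff]
  intro x _
  -- split `x` into the part in the complement and the part in the derived subgroup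
  have hv : P (x * (P x)⁻¹) = 1 := by
    rw [hPmul _ _ (inv_mem (hP1 x)), mul_inv_cancel]
  have hsq : (x * (P x)⁻¹) * (x * (P x)⁻¹) ∈ H := by
    have h3 := h1 (x * (P x)⁻¹)
    have h4 : ((⟨⟨θ, θ, hθθ, hθθ⟩, hθmul⟩ : MulAut G) (x * (P x)⁻¹))⁻¹ = x * (P x)⁻¹ := by
      show ((x * (P x)⁻¹)⁻¹ * (P (x * (P x)⁻¹) * P (x * (P x)⁻¹)))⁻¹ = _
      rw [hv]; simp
    rwa [h4] at h3
  have hvH : x * (P x)⁻¹ ∈ H := by
    have h5 := pow_mem hsq m
    rwa [← sq, ← pow_mul, D.hm, pow_succ, D.expo, one_mul] at h5
  have h6 := mul_mem hvH (h2 (hP1 x))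
  rwa [inv_mul_cancel_right] at h6

end Baer

/-! ### The integral -/

theorem hasIntegral {G : Type u} [Group G] {p m : ℕ} (D : Data G p m) [Fact p.Prime] :
    HasIntegral G := by
  obtain ⟨θ, hθ⟩ := D.exists_aut
  let φ : Multiplicative ℤ →* MulAut G := zpowersHom (MulAut G) θ
  have hφ : φ (Multiplicative.ofAdd 1) = θ := by simp [φ]
  refine ⟨G ⋊[φ] (Multiplicative ℤ), inferInstance, ?_⟩
  have hle : commutator (G ⋊[φ] (Multiplicative ℤ))
      ≤ (SemidirectProduct.inl : G →* G ⋊[φ] (Multiplicative ℤ)).range := by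
    rw [SemidirectProduct.range_inl_eq_ker_rightHom]
    exact Abelianization.commutator_subset_ker _
  have htop : (commutator (G ⋊[φ] (Multiplicative ℤ))).comap
      (SemidirectProduct.inl : G →* G ⋊[φ] (Multiplicative ℤ)) = ⊤ := by
    apply hθ
    · intro g
      rw [Subgroup.mem_comap, map_mul, map_inv, ← hφ, SemidirectProduct.inl_aut, map_inv]
      have : (SemidirectProduct.inl g : G ⋊[φ] (Multiplicative ℤ)) *
          (SemidirectProduct.inr (Multiplicative.ofAdd 1) * SemidirectProduct.inl g *
            (SemidirectProduct.inr (Multiplicative.ofAdd 1))⁻¹)⁻¹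
          = ⁅(SemidirectProduct.inl g : G ⋊[φ] (Multiplicative ℤ)),
            SemidirectProduct.inr (Multiplicative.ofAdd 1)⁆ := by
        rw [commutatorElement_def]; group
      rw [this]
      exact Subgroup.commutator_mem_commutator (Subgroup.mem_top _) (Subgroup.mem_top _)
    · rw [commutator_def, Subgroup.commutator_le]
      intro x _ y _
      rw [Subgroup.mem_comap, map_commutatorElement]
      exact Subgroup.commutator_mem_commutator (Subgroup.mem_top _) (Subgroup.mem_top _)
  have heq : commutator (G ⋊[φ] (Multiplicative ℤ))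
      = (SemidirectProduct.inl : G →* G ⋊[φ] (Multiplicative ℤ)).range := by
    refine le_antisymm hle ?_
    rintro _ ⟨g, rfl⟩
    have : g ∈ (commutator (G ⋊[φ] (Multiplicative ℤ))).comap
      (SemidirectProduct.inl : G →* G ⋊[φ] (Multiplicative ℤ)) := by
      rw [htop]; trivial
    exact this
  exact ⟨(MulEquiv.subgroupCongr heq).trans
    (MonoidHom.ofInjective SemidirectProduct.inl_injective).symm⟩

/-! ### A nonabelian group of exponent `p` and class two -/

/-- The Heisenberg group over `ZMod p`, in Baer's coordinates. -/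
@[ext] structure Heis (p : ℕ) where
  /-- first coordinate -/
  a : ZMod p
  /-- second coordinate -/
  b : ZMod p
  /-- central coordinate -/
  c : ZMod p

variable {p : ℕ}

instance : Mul (Heis p) := ⟨fun x y => ⟨x.a + y.a, x.b + y.b, x.c + y.c + (x.a * y.b - x.b * y.a)⟩⟩
instance : One (Heis p) := ⟨⟨0, 0, 0⟩⟩
instance : Inv (Heis p) := ⟨fun x => ⟨-x.a, -x.b, -x.c⟩⟩

theorem heis_mul (x y : Heis p) :
    x * y = ⟨x.a + y.a, x.b + y.b, x.c + y.c + (x.a * y.b - x.b * y.a)⟩ := rfl
theorem heis_one : (1 : Heis p) = ⟨0, 0, 0⟩ := rfl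
theorem heis_inv (x : Heis p) : x⁻¹ = ⟨-x.a, -x.b, -x.c⟩ := rfl

instance : Group (Heis p) :=
  Group.ofLeftAxioms
    (by intro x y z; ext <;> simp only [heis_mul] <;> ring)
    (by intro x; ext <;> simp [heis_mul, heis_one])
    (by intro x; ext <;> simp [heis_mul, heis_one, heis_inv]; ring)

theorem heis_pow (x : Heis p) (n : ℕ) : x ^ n = ⟨n * x.a, n * x.b, n * x.c⟩ := by
  induction n with
  | zero => simp [heis_one]
  | succ n ih => rw [pow_succ, ih, heis_mul]; ext <;> push_cast <;> ring

theorem heis_inVariety : InVariety (laws p) (Heis p) := by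
  intro w hw f
  simp only [laws, Set.mem_insert_iff, Set.mem_singleton_iff] at hw
  rcases hw with rfl | rfl
  · rw [map_pow, FreeGroup.lift_apply_of, heis_pow, heis_one]
    simp
  · have h : ∀ x y z : Heis p, ⁅⁅x, y⁆, z⁆ = 1 := by
      intro x y z
      simp only [commutatorElement_def, heis_mul, heis_inv, heis_one]
      ext <;> ring
    rw [map_commutatorElement, map_commutatorElement]
    exact h _ _ _

/-- For every odd prime `p` the variety of the groups of exponent dividing `p` and class at most
two contains a nonabelian group, and every group in this variety has an integral. -/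
theorem result (p : ℕ) (hp : p.Prime) (hodd : p ≠ 2) :
    (∃ (G : Type u) (_ : Group G), InVariety (laws p) G ∧ ∃ x y : G, x * y ≠ y * x) ∧
    (∀ (G : Type u) [Group G], InVariety (laws p) G → HasIntegral G) := by
  have : Fact p.Prime := ⟨hp⟩
  constructor
  · refine ⟨ULift.{u} (Heis p), inferInstance, ?_, ⟨⟨1, 0, 0⟩⟩, ⟨⟨0, 1, 0⟩⟩, fun h => ?_⟩
    · intro w hw f
      apply (MulEquiv.ulift : ULift.{u} (Heis p) ≃* Heis p).injective
      have h1 := heis_inVariety w hw (fun i => (f i).down)
      have h2 : ((MulEquiv.ulift : ULift.{u} (Heis p) ≃* Heis p).toMonoidHom).comp (FreeGroup.lift f)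
          = FreeGroup.lift (fun i => (f i).down) := by
        ext i : 1; simp; rfl
      rw [map_one, ← h1, ← h2]
      rfl
    · have h1 := congrArg (fun x : ULift.{u} (Heis p) => x.down.c) h
      have h2 : (0 : ZMod p) + 0 + (1 * 1 - 0 * 0) = 0 + 0 + (0 * 0 - 1 * 1) := h1
      have h3 : ((2 : ℕ) : ZMod p) = 0 := by
        push_cast
        linear_combination h2
      rw [ZMod.natCast_eq_zero_iff] at h3
      exact hodd ((Nat.prime_dvd_prime_iff_eq hp Nat.prime_two).1 h3)
  · intro G _ hG
    obtain ⟨m, hm⟩ : ∃ m, p = 2 * m + 1 := hp.odd_of_ne_two hodd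
    have D : Data G p (m + 1) :=
      { central := by
          intro x y z
          have h := hG _ (by unfold laws; right; rfl) (fun i => if i = 0 then x else if i = 1 then y else z)
          rw [map_commutatorElement, map_commutatorElement,
            commutatorElement_eq_one_iff_mul_comm] at h
          simpa using h
        expo := by
          intro x
          have h := hG _ (by unfold laws; left; rfl) (fun _ => x)
          simpa using h
        hm := by omega }
    exact hasIntegral D

end Pool.Agent.Results.MP_fbf3cb_al.ClassTwoOddPrime
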